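import Mathlib

/-!
Chains of tuples of a partially ordered set with rational coefficients; the condition `Acy S d` (the
reduced homology of the complex of the strict chains in `S` vanishes below the chains with `d`
vertices).
-/

set_option autoImplicit false

namespace Pool.Agent.LibST67

variable {P : Type*}

/-- the boundary of a chain of tuples with `q + 1` entries (for `q = 0`: the augmentation) -/
noncomputable def bd (q : ℕ) : ((Fin (q + 1) → P) →₀ ℚ) →ₗ[ℚ] ((Fin q → P) →₀ ℚ) :=
  Finsupp.linearCombination ℚ (fun f : Fin (q + 1) → P =>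
    ∑ j : Fin (q + 1), ((-1 : ℚ) ^ (j : ℕ)) • Finsupp.single (f ∘ Fin.succAbove j) (1 : ℚ))

/-- writing `x` in front of each tuple -/
noncomputable def cn (x : P) (q : ℕ) : ((Fin q → P) →₀ ℚ) →ₗ[ℚ] ((Fin (q + 1) → P) →₀ ℚ) :=
  Finsupp.lmapDomain ℚ ℚ (fun f : Fin q → P => (Fin.cons x f : Fin (q + 1) → P))

/-- the coefficients at the tuples with first entry `x` -/
noncomputable def pr (x : P) (q : ℕ) : ((Fin (q + 1) → P) →₀ ℚ) →ₗ[ℚ] ((Fin q → P) →₀ ℚ) :=
  Finsupp.lcomapDomain (fun f : Fin q → P => (Fin.cons x f : Fin (q + 1) → P))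
    (fun _ _ h => Fin.cons_right_injective (α := fun _ => P) x h)

/-- the chains whose tuples are strictly increasing with entries in `S` -/
def SC [PartialOrder P] (S : Set P) (q : ℕ) : Submodule ℚ ((Fin q → P) →₀ ℚ) :=
  Finsupp.supported ℚ ℚ {f : Fin q → P | StrictMono f ∧ ∀ j, f j ∈ S}

/-- the chains whose tuples are weakly increasing with entries in `S` -/
def MC [PartialOrder P] (S : Set P) (q : ℕ) : Submodule ℚ ((Fin q → P) →₀ ℚ) :=
  Finsupp.supported ℚ ℚ {f : Fin q → P | Monotone f ∧ ∀ j, f j ∈ S}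

open Classical in
/-- forgetting the tuples which are not strictly increasing -/
noncomputable def nrm [PartialOrder P] (q : ℕ) : ((Fin q → P) →₀ ℚ) →ₗ[ℚ] ((Fin q → P) →₀ ℚ) :=
  Finsupp.linearCombination ℚ
    (fun f : Fin q → P => if StrictMono f then Finsupp.single f (1 : ℚ) else 0)

/-- the reduced homology of the strict chains in `S` vanishes below the chains with `d` vertices -/
def Acy [PartialOrder P] (S : Set P) (d : ℕ) : Prop :=
  (0 < d → S.Nonempty) ∧
  ∀ q, q + 1 < d → ∀ z ∈ SC S (q + 1), bd q z = 0 → ∃ w ∈ SC S (q + 2), bd (q + 1) w = z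

end Pool.Agent.LibST67
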