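import Pool.Agent.LibST67.H1

/-!
Equivariant splitting of complexes of free `G`-sets, and the main statement of homological algebra:
if `H_1(G; V) = 0` and `V` is the top homology of an exact complex of free `G`-sets, then every cycle of
the coinvariants in the next degree is a boundary.
-/

set_option autoImplicit false

namespace Pool.Agent.LibST67

variable {G T : Type} [Group G] [MulAction G T]

/-- the action on chains -/
noncomputable def act (g : G) : (T →₀ ℚ) →ₗ[ℚ] (T →₀ ℚ) :=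
  Finsupp.lmapDomain ℚ ℚ (fun t : T => g • t)

theorem act_single (g : G) (t : T) (a : ℚ) :
    act g (Finsupp.single t a) = Finsupp.single (g • t) a := by
  simp [act]

theorem act_one (z : T →₀ ℚ) : act (1 : G) z = z := by
  induction z using Finsupp.induction_linear with
  | zero => simp
  | add f g hf hg => rw [map_add, hf, hg]
  | single t a => rw [act_single, one_smul]

theorem act_mul (g h : G) (z : T →₀ ℚ) : act (g * h) z = act g (act h z) := by
  induction z using Finsupp.induction_linear with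
  | zero => simp
  | add f g hf hg => rw [map_add, map_add, map_add, hf, hg]
  | single t a => rw [act_single, act_single, act_single, mul_smul]

/-- the representation on chains -/
noncomputable def actR (G T : Type) [Group G] [MulAction G T] : Representation ℚ G (T →₀ ℚ) where
  toFun := act
  map_one' := LinearMap.ext act_one
  map_mul' g h := LinearMap.ext (act_mul g h)

theorem actR_apply (g : G) (z : T →₀ ℚ) : actR G T g z = act g z := rfl

theorem act_mem {E : Set T} (hE : ∀ (g : G) (t : T), t ∈ E → g • t ∈ E) (g : G) {z : T →₀ ℚ}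
    (hz : z ∈ Finsupp.supported ℚ ℚ E) : act g z ∈ Finsupp.supported ℚ ℚ E := by
  rw [Finsupp.mem_supported] at hz
  rw [← Finsupp.sum_single z, Finsupp.sum, map_sum]
  refine Submodule.sum_mem _ fun t ht => ?_
  rw [act_single]
  exact Finsupp.single_mem_supported ℚ _ (hE g t (hz ht))

/-- equivariant choice on a free invariant set -/
theorem lift_equiv (E : Set T) (hE : ∀ (g : G) (t : T), t ∈ E → g • t ∈ E)
    (hfree : ∀ t ∈ E, ∀ g : G, g • t = t → g = 1) (Q : T → (T →₀ ℚ) → Prop)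
    (hQ : ∀ t ∈ E, ∃ w, Q t w) (hQe : ∀ (g : G) (t : T) (w : T →₀ ℚ), t ∈ E → Q t w →
      Q (g • t) (act g w)) :
    ∃ h : (T →₀ ℚ) →ₗ[ℚ] (T →₀ ℚ), (∀ (g : G) (z : T →₀ ℚ), h (act g z) = act g (h z)) ∧
      ∀ t ∈ E, Q t (h (Finsupp.single t 1)) := by
  classical
  let rp : T → T := fun t => Quotient.out (Quotient.mk (MulAction.orbitRel G T) t)
  have hrp : ∀ t : T, ∃ g : G, g • rp t = t := by
    intro t
    have h := Quotient.exact (Quotient.out_eq (Quotient.mk (MulAction.orbitRel G T) t)).symm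
    exact MulAction.mem_orbit_iff.1 (MulAction.orbitRel_apply.1 h)
  choose γ hγ using hrp
  have hrpE : ∀ t ∈ E, rp t ∈ E := by
    intro t ht
    have h5 := hE (γ t)⁻¹ t ht
    have h6 : (γ t)⁻¹ • t = rp t := by
      rw [inv_smul_eq_iff]
      exact (hγ t).symm
    rwa [h6] at h5
  have hrpg : ∀ (g : G) (t : T), rp (g • t) = rp t := by
    intro g t
    show Quotient.out _ = Quotient.out _
    congr 1
    exact Quotient.sound (MulAction.orbitRel_apply.2 (MulAction.mem_orbit t g))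
  choose! w0 hw0 using hQ
  let h0 : T → (T →₀ ℚ) := fun t => if t ∈ E then act (γ t) (w0 (rp t)) else 0
  have hh0 : ∀ (g : G) (t : T), h0 (g • t) = act g (h0 t) := by
    intro g t
    by_cases ht : t ∈ E
    · have hgt : g • t ∈ E := hE g t ht
      simp only [h0, if_pos ht, if_pos hgt]
      have h1 : γ (g • t) = g * γ t := by
        have h2 : γ (g • t) • rp t = g • t := by
          rw [← hrpg g t]
          exact hγ (g • t)
        have h3 : ((g * γ t)⁻¹ * γ (g • t)) • rp t = rp t := by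
          rw [mul_smul, h2, inv_smul_eq_iff, mul_smul, hγ t]
        have h4 := hfree _ (hrpE t ht) _ h3
        rwa [inv_mul_eq_one, eq_comm] at h4
      rw [h1, act_mul, hrpg]
    · have hgt : g • t ∉ E := by
        intro h
        apply ht
        have := hE g⁻¹ _ h
        rwa [inv_smul_smul] at this
      simp only [h0, if_neg ht, if_neg hgt, map_zero]
  refine ⟨Finsupp.linearCombination ℚ h0, ?_, ?_⟩
  · intro g z
    induction z using Finsupp.induction_linear with
    | zero => simp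
    | add f g hf hg => rw [map_add, map_add, hf, hg, map_add, map_add]
    | single t a =>
      rw [act_single, Finsupp.linearCombination_single, Finsupp.linearCombination_single, hh0,
        map_smul]
  · intro t ht
    rw [Finsupp.linearCombination_single, one_smul]
    simp only [h0, if_pos ht]
    have := hQe (γ t) (rp t) _ (hrpE t ht) (hw0 _ (hrpE t ht))
    rwa [hγ t] at this

section complex

variable (E : ℕ → Set T) (hE : ∀ k, ∀ (g : G) (t : T), t ∈ E k → g • t ∈ E k)
  (hfree : ∀ k, ∀ t ∈ E k, ∀ g : G, g • t = t → g = 1)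
  (D : (T →₀ ℚ) →ₗ[ℚ] (T →₀ ℚ))
  (hDg : ∀ (g : G) (z : T →₀ ℚ), D (act g z) = act g (D z))
  (hDE : ∀ k, ∀ z ∈ Finsupp.supported ℚ ℚ (E (k + 1)), D z ∈ Finsupp.supported ℚ ℚ (E k))
  (hD0 : ∀ z ∈ Finsupp.supported ℚ ℚ (E 0), D z = 0)
  (hDD : ∀ k, ∀ z ∈ Finsupp.supported ℚ ℚ (E k), D (D z) = 0)

include hE hfree hDg hDE hD0 hDD

/-- equivariant projections onto the cycles -/
theorem proj_exists (d : ℕ)
    (hex : ∀ k, k < d → ∀ z ∈ Finsupp.supported ℚ ℚ (E k), D z = 0 →
      ∃ w ∈ Finsupp.supported ℚ ℚ (E (k + 1)), D w = z) (k : ℕ) (hk : k ≤ d) :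
    ∃ Pj : (T →₀ ℚ) →ₗ[ℚ] (T →₀ ℚ), (∀ (g : G) (z : T →₀ ℚ), Pj (act g z) = act g (Pj z)) ∧
      (∀ z ∈ Finsupp.supported ℚ ℚ (E k), Pj z ∈ Finsupp.supported ℚ ℚ (E k) ∧ D (Pj z) = 0) ∧
      ∀ z ∈ Finsupp.supported ℚ ℚ (E k), D z = 0 → Pj z = z := by
  induction k with
  | zero => exact ⟨LinearMap.id, fun _ _ => rfl, fun z hz => ⟨hz, hD0 z hz⟩, fun _ _ _ => rfl⟩
  | succ k ih =>
    obtain ⟨Pj, h1, h2, h3⟩ := ih (by omega)
    obtain ⟨h, hh1, hh2⟩ := lift_equiv (G := G) (E k) (hE k) (hfree k)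
      (fun t w => w ∈ Finsupp.supported ℚ ℚ (E (k + 1)) ∧ D w = Pj (Finsupp.single t 1))
      (fun t ht => by
        have h4 := h2 (Finsupp.single t 1) (Finsupp.single_mem_supported ℚ _ ht)
        obtain ⟨w, hw, hw'⟩ := hex k (by omega) _ h4.1 h4.2
        exact ⟨w, hw, hw'⟩)
      (fun g t w _ hw => ⟨act_mem (hE (k + 1)) g hw.1, by
        rw [hDg, hw.2, ← h1, act_single]⟩)
    have hh3 : ∀ z ∈ Finsupp.supported ℚ ℚ (E k),
        h z ∈ Finsupp.supported ℚ ℚ (E (k + 1)) ∧ D (h z) = Pj z := by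
      intro z hz
      rw [Finsupp.mem_supported] at hz
      have hz' : z = ∑ t ∈ z.support, z t • Finsupp.single t (1 : ℚ) := by
        conv_lhs => rw [← Finsupp.sum_single z, Finsupp.sum]
        refine Finset.sum_congr rfl fun t _ => ?_
        rw [Finsupp.smul_single, smul_eq_mul, mul_one]
      rw [hz']
      constructor
      · rw [map_sum]
        refine Submodule.sum_mem _ fun t ht => ?_
        rw [map_smul]
        exact Submodule.smul_mem _ _ (hh2 t (hz ht)).1
      · rw [map_sum, map_sum, map_sum]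
        refine Finset.sum_congr rfl fun t ht => ?_
        rw [map_smul, map_smul, map_smul, (hh2 t (hz ht)).2]
    refine ⟨LinearMap.id - h ∘ₗ D, ?_, ?_, ?_⟩
    · intro g z
      simp only [LinearMap.sub_apply, LinearMap.id_apply, LinearMap.comp_apply, hDg, hh1, map_sub]
    · intro z hz
      have hDz := hDE k z hz
      have h5 := hh3 (D z) hDz
      have h6 : Pj (D z) = D z := h3 _ hDz (hDD _ z hz)
      simp only [LinearMap.sub_apply, LinearMap.id_apply, LinearMap.comp_apply, map_sub]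
      exact ⟨Submodule.sub_mem _ hz h5.1, by rw [h5.2, h6, sub_self]⟩
    · intro z _ hz
      simp only [LinearMap.sub_apply, LinearMap.id_apply, LinearMap.comp_apply, hz, map_zero,
        sub_zero]

/-- the main statement of homological algebra -/
theorem coinv_boundary (d : ℕ)
    (hex : ∀ k, k < d → ∀ z ∈ Finsupp.supported ℚ ℚ (E k), D z = 0 →
      ∃ w ∈ Finsupp.supported ℚ ℚ (E (k + 1)), D w = z)
    (hex' : ∀ z ∈ Finsupp.supported ℚ ℚ (E (d + 1)), D z = 0 →
      ∃ w ∈ Finsupp.supported ℚ ℚ (E (d + 2)), D w = z)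
    {V : Type} [AddCommGroup V] [Module ℚ V] (ρ : Representation ℚ G V)
    (hH : Subsingleton (groupHomology (Rep.of ρ) 1)) (p : (T →₀ ℚ) →ₗ[ℚ] V)
    (hpe : ∀ g : G, ∀ z ∈ Finsupp.supported ℚ ℚ (E d), D z = 0 → p (act g z) = ρ g (p z))
    (hps : ∀ v : V, ∃ z ∈ Finsupp.supported ℚ ℚ (E d), D z = 0 ∧ p z = v)
    (hpk : ∀ z ∈ Finsupp.supported ℚ ℚ (E d), D z = 0 → p z = 0 →
      ∃ w ∈ Finsupp.supported ℚ ℚ (E (d + 1)), D w = z)
    (hpk' : ∀ w ∈ Finsupp.supported ℚ ℚ (E (d + 1)), p (D w) = 0)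
    (c : T →₀ ℚ) (hc : c ∈ Finsupp.supported ℚ ℚ (E (d + 1)))
    (hDc : D c ∈ IG (actR G T) (Finsupp.supported ℚ ℚ (E d))) :
    ∃ b ∈ Finsupp.supported ℚ ℚ (E (d + 2)),
      c - D b ∈ IG (actR G T) (Finsupp.supported ℚ ℚ (E (d + 1))) := by
  obtain ⟨Pj, h1, h2, h3⟩ := proj_exists E hE hfree D hDg hDE hD0 hDD d hex d le_rfl
  -- the cycles
  set N : Submodule ℚ (T →₀ ℚ) := Finsupp.supported ℚ ℚ (E d) ⊓ LinearMap.ker D with hN
  have hDcd : D c ∈ Finsupp.supported ℚ ℚ (E d) := hDE d c hc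
  have hDDc : D (D c) = 0 := hDD _ c hc
  have hstep : ∀ x ∈ IG (actR G T) (Finsupp.supported ℚ ℚ (E d)), Pj x ∈ IG (actR G T) N := by
    intro x hx
    induction hx using Submodule.span_induction with
    | mem x hx =>
      obtain ⟨g, z, hz, rfl⟩ := hx
      refine Submodule.subset_span ⟨g, Pj z, ⟨(h2 z hz).1, (h2 z hz).2⟩, ?_⟩
      rw [map_sub, actR_apply, actR_apply, h1]
    | zero => rw [map_zero]; exact Submodule.zero_mem _
    | add x y _ _ hx hy => rw [map_add]; exact Submodule.add_mem _ hx hy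
    | smul a x _ hx => rw [map_smul]; exact Submodule.smul_mem _ _ hx
  have h4 : D c ∈ IG (actR G T) N := by
    have := hstep _ hDc
    rwa [h3 _ hDcd hDDc] at this
  have h5 : D c ∈ IG (actR G T) (N ⊓ LinearMap.ker p) := by
    refine h1_lemma ρ hH (actR G T) N ?_ p ?_ ?_ (D c) (hpk' c hc) h4
    · rintro g z ⟨hz, hz'⟩
      refine ⟨act_mem (hE d) g hz, ?_⟩
      show D (act g z) = 0
      rw [hDg, LinearMap.mem_ker.1 hz', map_zero]
    · intro v
      obtain ⟨z, hz, hz', hz''⟩ := hps v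
      exact ⟨z, ⟨hz, hz'⟩, hz''⟩
    · rintro g z ⟨hz, hz'⟩
      exact hpe g z hz hz'
  -- lift
  have h6 : ∀ x ∈ IG (actR G T) (N ⊓ LinearMap.ker p),
      ∃ y ∈ IG (actR G T) (Finsupp.supported ℚ ℚ (E (d + 1))),
        y ∈ Finsupp.supported ℚ ℚ (E (d + 1)) ∧ D y = x := by
    intro x hx
    induction hx using Submodule.span_induction with
    | mem x hx =>
      obtain ⟨g, z, ⟨⟨hz, hz'⟩, hz''⟩, rfl⟩ := hx
      obtain ⟨w, hw, hw'⟩ := hpk z hz hz' hz''
      refine ⟨actR G T g w - w, Submodule.subset_span ⟨g, w, hw, rfl⟩,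
        Submodule.sub_mem _ (act_mem (hE (d + 1)) g hw) hw, ?_⟩
      rw [map_sub, actR_apply, hDg, hw', actR_apply]
    | zero => exact ⟨0, Submodule.zero_mem _, Submodule.zero_mem _, map_zero _⟩
    | add x y _ _ hx hy =>
      obtain ⟨a, ha, ha', ha''⟩ := hx
      obtain ⟨b, hb, hb', hb''⟩ := hy
      exact ⟨a + b, Submodule.add_mem _ ha hb, Submodule.add_mem _ ha' hb', by
        rw [map_add, ha'', hb'']⟩
    | smul r x _ hx =>
      obtain ⟨a, ha, ha', ha''⟩ := hx
      exact ⟨r • a, Submodule.smul_mem _ _ ha, Submodule.smul_mem _ _ ha', by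
        rw [map_smul, ha'']⟩
  obtain ⟨y, hy, hy', hy''⟩ := h6 _ h5
  obtain ⟨b, hb, hb'⟩ := hex' (c - y) (Submodule.sub_mem _ hc hy') (by
    rw [map_sub, hy'', sub_self])
  refine ⟨b, hb, ?_⟩
  rw [hb', sub_sub_cancel]
  exact hy

end complex

end Pool.Agent.LibST67
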