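import Mathlib

/-!
`H_1(G; V) = 0` and a surjection `p : Z → V` with kernel `K`: an element of `K` which is zero in the
coinvariants of `Z` is zero in the coinvariants of `K`.
-/

set_option autoImplicit false

namespace Pool.Agent.LibST67

open groupHomology

theorem d₂₁_all {G V : Type} [Group G] [AddCommGroup V] [Module ℚ V] (ρ : Representation ℚ G V)
    (h1 : Subsingleton (groupHomology (Rep.of ρ) 1)) (x : G →₀ V)
    (hx : (x.sum fun g a => ρ g⁻¹ a - a) = 0) :
    ∃ y : G × G →₀ V,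
      (y.sum fun g a => Finsupp.single g.2 (ρ g.1⁻¹ a) - Finsupp.single (g.1 * g.2) a +
        Finsupp.single g.1 a) = x := by
  have hx' : x ∈ cycles₁ (Rep.of ρ) := by
    rw [mem_cycles₁_iff]
    rw [Finsupp.sum_sub, sub_eq_zero] at hx
    exact hx
  have h2 : H1π (Rep.of ρ) ⟨x, hx'⟩ = 0 := by
    have : Subsingleton (H1 (Rep.of ρ)) := h1
    exact Subsingleton.elim _ _
  rw [H1π_eq_zero_iff] at h2
  obtain ⟨y, hy⟩ := h2
  exact ⟨y, hy⟩

/-- the span of the elements `g b - b` with `b ∈ N` -/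
def IG {G Z : Type} [Group G] [AddCommGroup Z] [Module ℚ Z] (σ : Representation ℚ G Z)
    (N : Submodule ℚ Z) : Submodule ℚ Z :=
  Submodule.span ℚ {x | ∃ g : G, ∃ z ∈ N, x = σ g z - z}

theorem IG_exists {G Z : Type} [Group G] [AddCommGroup Z] [Module ℚ Z] (σ : Representation ℚ G Z)
    {k : Z} (hk : k ∈ IG σ ⊤) : ∃ z : G →₀ Z, (z.sum fun g a => σ g⁻¹ a - a) = k := by
  induction hk using Submodule.span_induction with
  | mem x hx =>
    obtain ⟨g, z, -, rfl⟩ := hx
    exact ⟨Finsupp.single g⁻¹ z, by simp⟩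
  | zero => exact ⟨0, by simp⟩
  | add x y _ _ hx hy =>
    obtain ⟨z, rfl⟩ := hx
    obtain ⟨w, rfl⟩ := hy
    refine ⟨z + w, ?_⟩
    classical
    rw [Finsupp.sum_add_index']
    · simp
    · intro g a b
      rw [map_add]
      abel
  | smul c x _ hx =>
    obtain ⟨z, rfl⟩ := hx
    refine ⟨c • z, ?_⟩
    rw [Finsupp.sum_smul_index']
    · rw [Finsupp.smul_sum]
      refine Finsupp.sum_congr fun g _ => ?_
      rw [map_smul, smul_sub]
    · simp

/-- the main lemma on `H_1` -/
theorem h1_lemma {G V Z : Type} [Group G] [AddCommGroup V] [Module ℚ V] [AddCommGroup Z]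
    [Module ℚ Z] (ρ : Representation ℚ G V) (h1 : Subsingleton (groupHomology (Rep.of ρ) 1))
    (σ : Representation ℚ G Z) (N : Submodule ℚ Z) (hN : ∀ g, ∀ z ∈ N, σ g z ∈ N)
    (p : Z →ₗ[ℚ] V) (hp : ∀ v, ∃ z ∈ N, p z = v) (hpe : ∀ g, ∀ z ∈ N, p (σ g z) = ρ g (p z))
    (k : Z) (hk : p k = 0) (hk' : k ∈ IG σ N) : k ∈ IG σ (N ⊓ LinearMap.ker p) := by
  classical
  -- restrict to `N`
  have key : ∃ z : G →₀ Z, (∀ g, z g ∈ N) ∧ (z.sum fun g a => σ g⁻¹ a - a) = k := by
    clear hk
    induction hk' using Submodule.span_induction with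
    | mem x hx =>
      obtain ⟨g, z, hz, rfl⟩ := hx
      refine ⟨Finsupp.single g⁻¹ z, fun h => ?_, by simp⟩
      rw [Finsupp.single_apply]
      split_ifs
      · exact hz
      · exact N.zero_mem
    | zero => exact ⟨0, fun _ => N.zero_mem, by simp⟩
    | add x y _ _ hx hy =>
      obtain ⟨z, hz, rfl⟩ := hx
      obtain ⟨w, hw, rfl⟩ := hy
      refine ⟨z + w, fun g => N.add_mem (hz g) (hw g), ?_⟩
      rw [Finsupp.sum_add_index']
      · simp
      · intro g a b
        rw [map_add]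
        abel
    | smul c x _ hx =>
      obtain ⟨z, hz, rfl⟩ := hx
      refine ⟨c • z, fun g => N.smul_mem _ (hz g), ?_⟩
      rw [Finsupp.sum_smul_index']
      · rw [Finsupp.smul_sum]
        refine Finsupp.sum_congr fun g _ => ?_
        rw [map_smul, smul_sub]
      · simp
  obtain ⟨z, hzN, hz⟩ := key
  -- the image is a cycle
  obtain ⟨y, hy⟩ := d₂₁_all ρ h1 (z.mapRange p (map_zero p)) (by
    rw [Finsupp.sum_mapRange_index (by simp)]
    have : p (z.sum fun g a => σ g⁻¹ a - a) = 0 := by rw [hz, hk]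
    rw [map_finsuppSum] at this
    rw [← this]
    refine Finsupp.sum_congr fun g _ => ?_
    rw [map_sub, hpe _ _ (hzN g)])
  -- lift `y`
  choose s hsN hs using hp
  let Y : G × G →₀ Z := y.mapRange (fun v => s v - s 0) (sub_self _)
  have hs0 : s 0 ∈ N ∧ p (s 0) = 0 := ⟨hsN 0, hs 0⟩
  have hYN : ∀ g, Y g ∈ N := fun g => by
    rw [Finsupp.mapRange_apply]
    exact N.sub_mem (hsN _) hs0.1
  have hYp : ∀ g, p (Y g) = y g := fun g => by
    rw [Finsupp.mapRange_apply, map_sub, hs, hs0.2, sub_zero]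
  let D : (G × G →₀ Z) →ₗ[ℚ] (G →₀ Z) := Finsupp.lsum ℚ fun g =>
    Finsupp.lsingle g.2 ∘ₗ σ g.1⁻¹ - Finsupp.lsingle (g.1 * g.2) + Finsupp.lsingle g.1
  let d : (G →₀ Z) →ₗ[ℚ] Z := Finsupp.lsum ℚ fun g => σ g⁻¹ - LinearMap.id
  have hdD : ∀ Y, d (D Y) = 0 := by
    intro Y
    induction Y using Finsupp.induction_linear with
    | zero => simp
    | add f g hf hg => rw [map_add, map_add, hf, hg, add_zero]
    | single g a =>
      simp only [D, d, Finsupp.lsum_single, LinearMap.add_apply, LinearMap.sub_apply,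
        LinearMap.comp_apply, Finsupp.lsingle_apply, map_add, map_sub, LinearMap.id_apply]
      rw [mul_inv_rev, map_mul, Module.End.mul_apply]
      abel
  have hdz : d z = k := by
    rw [← hz]
    rfl
  let w := z - D Y
  have hdw : d w = k := by
    rw [map_sub, hdD, sub_zero, hdz]
  have hwN : ∀ g, w g ∈ N := by
    intro g
    refine N.sub_mem (hzN g) ?_
    have : D Y = ∑ h ∈ Y.support, (Finsupp.single h.2 (σ h.1⁻¹ (Y h)) -
        Finsupp.single (h.1 * h.2) (Y h) + Finsupp.single h.1 (Y h)) := rfl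
    rw [this, Finsupp.finsetSum_apply]
    refine N.sum_mem fun h _ => ?_
    have hs1 : ∀ (a b : G) (v : Z), v ∈ N → Finsupp.single a v b ∈ N := by
      intro a b v hv
      rw [Finsupp.single_apply]
      split_ifs
      · exact hv
      · exact N.zero_mem
    exact N.add_mem (N.sub_mem (hs1 _ _ _ (hN _ _ (hYN h))) (hs1 _ _ _ (hYN h)))
      (hs1 _ _ _ (hYN h))
  have hwp : ∀ g, p (w g) = 0 := by
    intro g
    have h3 : (D Y).mapRange p (map_zero p) = z.mapRange p (map_zero p) := by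
      rw [← hy]
      have h4 : D Y = ∑ h ∈ Y.support, (Finsupp.single h.2 (σ h.1⁻¹ (Y h)) -
        Finsupp.single (h.1 * h.2) (Y h) + Finsupp.single h.1 (Y h)) := rfl
      have h5 : ∀ f : G →₀ Z, f.mapRange p (map_zero p) = Finsupp.mapRange.linearMap p f :=
        fun f => rfl
      rw [h5, h4, map_sum, Finsupp.sum]
      have h6 : y.support ⊆ Y.support := by
        intro g hg
        rw [Finsupp.mem_support_iff] at hg ⊢
        intro h
        apply hg
        rw [← hYp, h, map_zero]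
      rw [← Finset.sum_subset h6]
      · refine Finset.sum_congr rfl fun h _ => ?_
        simp only [map_add, map_sub, Finsupp.mapRange.linearMap_apply, Finsupp.mapRange_single,
          hpe _ _ (hYN h), hYp]
      · intro h _ hh
        rw [Finsupp.notMem_support_iff] at hh
        simp only [map_add, map_sub, Finsupp.mapRange.linearMap_apply, Finsupp.mapRange_single,
          hpe _ _ (hYN h), hYp, hh]
        simp
    have h7 := DFunLike.congr_fun h3 g
    rw [Finsupp.mapRange_apply, Finsupp.mapRange_apply] at h7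
    show p ((z - D Y) g) = 0
    rw [Finsupp.sub_apply, map_sub, h7, sub_self]
  rw [← hdw]
  have h8 : d w = ∑ g ∈ w.support, (σ g⁻¹ (w g) - w g) := rfl
  rw [h8]
  exact Submodule.sum_mem _ fun g _ => Submodule.subset_span ⟨g⁻¹, w g, ⟨hwN g, hwp g⟩, rfl⟩

end Pool.Agent.LibST67
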