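import Pool.Agent.LibST67.Defs

/-!
Formulas for the boundary.
-/

set_option autoImplicit false

namespace Pool.Agent.LibST67

variable {P : Type*}

theorem bd_single (q : ℕ) (f : Fin (q + 1) → P) (c : ℚ) :
    bd q (Finsupp.single f c) =
      ∑ j : Fin (q + 1), ((-1 : ℚ) ^ (j : ℕ)) • Finsupp.single (f ∘ Fin.succAbove j) c := by
  rw [bd, Finsupp.linearCombination_single, Finset.smul_sum]
  refine Finset.sum_congr rfl fun j _ => ?_
  rw [smul_comm, Finsupp.smul_single, smul_eq_mul, mul_one]

theorem cn_single (x : P) (q : ℕ) (f : Fin q → P) (c : ℚ) :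
    cn x q (Finsupp.single f c) = Finsupp.single (Fin.cons x f : Fin (q + 1) → P) c := by
  simp [cn]

theorem cons_comp_succAbove_zero (x : P) (q : ℕ) (f : Fin q → P) :
    (Fin.cons x f : Fin (q + 1) → P) ∘ Fin.succAbove 0 = f := by
  funext i
  simp

theorem cons_comp_succAbove_succ (x : P) (q : ℕ) (f : Fin (q + 1) → P) (j : Fin (q + 1)) :
    (Fin.cons x f : Fin (q + 2) → P) ∘ Fin.succAbove j.succ =
      (Fin.cons x (f ∘ Fin.succAbove j) : Fin (q + 1) → P) := by
  funext i
  refine Fin.cases ?_ (fun i => ?_) i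
  · simp
  · simp

/-- `∂(x f) = f - x ∂f` -/
theorem bd_cn (x : P) (q : ℕ) (z : (Fin (q + 1) → P) →₀ ℚ) :
    bd (q + 1) (cn x (q + 1) z) = z - cn x q (bd q z) := by
  induction z using Finsupp.induction_linear with
  | zero => simp
  | add f g hf hg => rw [map_add, map_add, hf, hg, map_add, map_add]; abel
  | single f c =>
    rw [cn_single, bd_single, Fin.sum_univ_succ, bd_single, map_sum]
    simp only [cons_comp_succAbove_zero, cons_comp_succAbove_succ, map_smul, cn_single,
      Fin.val_zero, pow_zero, one_smul, Fin.val_succ, pow_succ, mul_neg, mul_one, neg_smul,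
      Finset.sum_neg_distrib, sub_eq_add_neg]

theorem bd_cn_zero (x : P) (z : (Fin 0 → P) →₀ ℚ) : bd 0 (cn x 0 z) = z := by
  induction z using Finsupp.induction_linear with
  | zero => simp
  | add f g hf hg => rw [map_add, map_add, hf, hg]
  | single f c =>
    rw [cn_single, bd_single]
    simp

theorem bd_bd (q : ℕ) (z : (Fin (q + 2) → P) →₀ ℚ) : bd q (bd (q + 1) z) = 0 := by
  induction z using Finsupp.induction_linear with
  | zero => simp
  | add f g hf hg => rw [map_add, map_add, hf, hg, add_zero]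
  | single f c =>
    induction q with
    | zero =>
      have h : f = (Fin.cons (f 0) (Fin.tail f) : Fin 2 → P) := (Fin.cons_self_tail f).symm
      rw [h, ← cn_single, bd_cn, map_sub, bd_cn_zero, sub_self]
    | succ q ih =>
      have h : f = (Fin.cons (f 0) (Fin.tail f) : Fin (q + 3) → P) := (Fin.cons_self_tail f).symm
      rw [h, ← cn_single, bd_cn, map_sub, bd_cn, ih, map_zero, sub_zero, sub_self]

theorem pr_apply (x : P) (q : ℕ) (z : (Fin (q + 1) → P) →₀ ℚ) (g : Fin q → P) :
    pr x q z g = z (Fin.cons x g : Fin (q + 1) → P) := rfl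

theorem pr_cn (x : P) (q : ℕ) (z : (Fin q → P) →₀ ℚ) : pr x q (cn x q z) = z := by
  ext g
  rw [pr_apply]
  exact Finsupp.mapDomain_apply (fun _ _ h => Fin.cons_right_injective (α := fun _ => P) x h) z g

theorem pr_cn_ne {x y : P} (h : x ≠ y) (q : ℕ) (z : (Fin q → P) →₀ ℚ) : pr x q (cn y q z) = 0 := by
  ext g
  rw [pr_apply]
  refine Finsupp.mapDomain_of_notMem_range _ _ ?_
  rintro ⟨f, hf⟩
  exact h (by simpa using (congrFun hf 0).symm)

end Pool.Agent.LibST67
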