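import Pool.Agent.LibST67.T1

/-!
Supports of boundaries; forgetting the tuples that are not strictly increasing commutes with the
boundary on weakly increasing tuples.
-/

set_option autoImplicit false

namespace Pool.Agent.LibST67

variable {P : Type*}

/-- A linear map on finitely supported functions respects supports if it does so on the points -/
theorem map_mem_of_single {A M : Type*} [AddCommGroup M] [Module ℚ M]
    (L : (A →₀ ℚ) →ₗ[ℚ] M) (s : Set A) (N : Submodule ℚ M)
    (h : ∀ a ∈ s, L (Finsupp.single a 1) ∈ N) {z : A →₀ ℚ} (hz : z ∈ Finsupp.supported ℚ ℚ s) :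
    L z ∈ N := by
  rw [Finsupp.mem_supported] at hz
  rw [← Finsupp.sum_single z, Finsupp.sum, map_sum]
  refine N.sum_mem fun a ha => ?_
  have : Finsupp.single a (z a) = z a • Finsupp.single a (1 : ℚ) := by simp
  rw [this, map_smul]
  exact N.smul_mem _ (h a (hz ha))

theorem eq_of_single {A M : Type*} [AddCommGroup M] [Module ℚ M]
    (L L' : (A →₀ ℚ) →ₗ[ℚ] M) (s : Set A)
    (h : ∀ a ∈ s, L (Finsupp.single a 1) = L' (Finsupp.single a 1)) {z : A →₀ ℚ}
    (hz : z ∈ Finsupp.supported ℚ ℚ s) : L z = L' z := by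
  have := map_mem_of_single (L - L') s ⊥ (fun a ha => by simp [h a ha]) hz
  rwa [Submodule.mem_bot, LinearMap.sub_apply, sub_eq_zero] at this

variable [PartialOrder P]

theorem SC_le_MC (S : Set P) (q : ℕ) : SC S q ≤ MC S q :=
  Finsupp.supported_mono fun _ hf => ⟨hf.1.monotone, hf.2⟩

theorem SC_mono {S T : Set P} (h : S ⊆ T) (q : ℕ) : SC S q ≤ SC T q :=
  Finsupp.supported_mono fun _ hf => And.intro hf.1 fun j => h (hf.2 j)

theorem MC_mono {S T : Set P} (h : S ⊆ T) (q : ℕ) : MC S q ≤ MC T q :=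
  Finsupp.supported_mono fun _ hf => And.intro hf.1 fun j => h (hf.2 j)

theorem single_mem_SC {S : Set P} {q : ℕ} {f : Fin q → P} (h : StrictMono f) (h' : ∀ j, f j ∈ S)
    (c : ℚ) : Finsupp.single f c ∈ SC S q :=
  Finsupp.single_mem_supported ℚ c (And.intro h h')

theorem single_mem_MC {S : Set P} {q : ℕ} {f : Fin q → P} (h : Monotone f) (h' : ∀ j, f j ∈ S)
    (c : ℚ) : Finsupp.single f c ∈ MC S q :=
  Finsupp.single_mem_supported ℚ c (And.intro h h')

theorem bd_mem_SC {S : Set P} {q : ℕ} {z : (Fin (q + 1) → P) →₀ ℚ} (hz : z ∈ SC S (q + 1)) :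
    bd q z ∈ SC S q := by
  refine map_mem_of_single _ _ _ (fun f hf => ?_) hz
  rw [bd_single]
  refine Submodule.sum_mem _ fun j _ => Submodule.smul_mem _ _ (single_mem_SC ?_ ?_ _)
  · exact hf.1.comp (Fin.strictMono_succAbove j)
  · exact fun i => hf.2 _

theorem bd_mem_MC {S : Set P} {q : ℕ} {z : (Fin (q + 1) → P) →₀ ℚ} (hz : z ∈ MC S (q + 1)) :
    bd q z ∈ MC S q := by
  refine map_mem_of_single _ _ _ (fun f hf => ?_) hz
  rw [bd_single]
  refine Submodule.sum_mem _ fun j _ => Submodule.smul_mem _ _ (single_mem_MC ?_ ?_ _)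
  · exact hf.1.comp (Fin.strictMono_succAbove j).monotone
  · exact fun i => hf.2 _

open Classical in
theorem nrm_single (q : ℕ) (f : Fin q → P) (c : ℚ) :
    nrm q (Finsupp.single f c) = if StrictMono f then Finsupp.single f c else 0 := by
  rw [nrm, Finsupp.linearCombination_single]
  split_ifs <;> simp

theorem nrm_mem {S : Set P} {q : ℕ} {z : (Fin q → P) →₀ ℚ} (hz : z ∈ MC S q) :
    nrm q z ∈ SC S q := by
  classical
  refine map_mem_of_single _ _ _ (fun f hf => ?_) hz
  rw [nrm_single]
  split_ifs with h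
  · exact single_mem_SC h hf.2 _
  · exact Submodule.zero_mem _

theorem nrm_eq {S : Set P} {q : ℕ} {z : (Fin q → P) →₀ ℚ} (hz : z ∈ SC S q) :
    nrm q z = z := by
  classical
  refine eq_of_single (nrm q) LinearMap.id _ (fun f hf => ?_) hz
  rw [nrm_single, if_pos hf.1, LinearMap.id_apply]

theorem strictMono_cons_iff {q : ℕ} (x : P) (f : Fin q → P) :
    StrictMono (Fin.cons x f : Fin (q + 1) → P) ↔ (∀ j, x < f j) ∧ StrictMono f := by
  constructor
  · intro h
    refine ⟨fun j => ?_, fun i j hij => ?_⟩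
    · simpa using h (Fin.succ_pos j)
    · simpa using h (Fin.succ_lt_succ_iff.2 hij)
  · rintro ⟨h1, h2⟩ i j
    refine Fin.cases ?_ (fun i => ?_) i <;> refine Fin.cases ?_ (fun j => ?_) j
    · intro h; exact absurd h (lt_irrefl _)
    · intro _; simpa using h1 j
    · intro h; exact absurd h (Fin.not_lt_zero _)
    · intro h; simpa using h2 (Fin.succ_lt_succ_iff.1 h)

theorem monotone_cons_iff {q : ℕ} (x : P) (f : Fin q → P) :
    Monotone (Fin.cons x f : Fin (q + 1) → P) ↔ (∀ j, x ≤ f j) ∧ Monotone f := by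
  constructor
  · intro h
    refine ⟨fun j => ?_, fun i j hij => ?_⟩
    · simpa using h (Fin.succ_pos j).le
    · simpa using h (Fin.succ_le_succ_iff.2 hij)
  · rintro ⟨h1, h2⟩ i j
    refine Fin.cases ?_ (fun i => ?_) i <;> refine Fin.cases ?_ (fun j => ?_) j
    · intro _; exact le_rfl
    · intro _; simpa using h1 j
    · intro h; exact absurd h (not_le_of_gt (Fin.succ_pos i))
    · intro h; simpa using h2 (Fin.succ_le_succ_iff.1 h)

/-- (c) -/
theorem nrm_cn {q : ℕ} (x : P) {w : (Fin q → P) →₀ ℚ}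
    (hw : w ∈ Finsupp.supported ℚ ℚ {g : Fin q → P | ∀ j, x < g j}) :
    nrm (q + 1) (cn x q w) = cn x q (nrm q w) := by
  classical
  refine eq_of_single (nrm (q + 1) ∘ₗ cn x q) (cn x q ∘ₗ nrm q) _ (fun f hf => ?_) hw
  rw [LinearMap.comp_apply, LinearMap.comp_apply, cn_single, nrm_single, nrm_single]
  have h : StrictMono (Fin.cons x f : Fin (q + 1) → P) ↔ StrictMono f := by
    rw [strictMono_cons_iff]
    exact ⟨fun h => h.2, fun h => ⟨hf, h⟩⟩
  by_cases h' : StrictMono f
  · rw [if_pos (h.2 h'), if_pos h', cn_single]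
  · rw [if_neg (fun h'' => h' (h.1 h'')), if_neg h', map_zero]

/-- (d) -/
theorem nrm_cn_cn {q : ℕ} (x : P) (w : (Fin q → P) →₀ ℚ) :
    nrm (q + 2) (cn x (q + 1) (cn x q w)) = 0 := by
  classical
  induction w using Finsupp.induction_linear with
  | zero => simp
  | add f g hf hg => rw [map_add, map_add, map_add, hf, hg, add_zero]
  | single f c =>
    rw [cn_single, cn_single, nrm_single, if_neg]
    rw [strictMono_cons_iff]
    intro h
    have h0 := h.1 0
    rw [Fin.cons_zero] at h0
    exact lt_irrefl _ h0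

theorem nrm_bd_single (q : ℕ) (f : Fin (q + 1) → P) (c : ℚ) (hf : Monotone f) :
    bd q (nrm (q + 1) (Finsupp.single f c)) = nrm q (bd q (Finsupp.single f c)) := by
  classical
  induction q with
  | zero =>
    have h1 : StrictMono f := by
      intro i j hij
      exact absurd hij (by rw [Subsingleton.elim (α := Fin 1) i j]; exact lt_irrefl _)
    rw [nrm_single, if_pos h1]
    generalize bd 0 (Finsupp.single f c) = w
    induction w using Finsupp.induction_linear with
    | zero => simp
    | add f g hf hg => rw [map_add, ← hf, ← hg]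
    | single g c => rw [nrm_single, if_pos (Subsingleton.strictMono g)]
  | succ q ih =>
    obtain ⟨x, f', rfl⟩ : ∃ x f', f = (Fin.cons x f' : Fin (q + 2) → P) :=
      ⟨f 0, Fin.tail f, (Fin.cons_self_tail f).symm⟩
    rw [monotone_cons_iff] at hf
    obtain ⟨hx, hm⟩ := hf
    have ih' := ih f' hm
    rcases (hx 0).lt_or_eq with hlt | heq
    · -- all entries are larger
      have hgt : ∀ j, x < f' j := fun j => hlt.trans_le (hm (Fin.zero_le j))
      have h1 : Finsupp.single f' c ∈ Finsupp.supported ℚ ℚ {g : Fin (q + 1) → P | ∀ j, x < g j} :=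
        Finsupp.single_mem_supported ℚ c (show f' ∈ {g | _} from hgt)
      have h2 : bd q (Finsupp.single f' c) ∈
          Finsupp.supported ℚ ℚ {g : Fin q → P | ∀ j, x < g j} := by
        rw [bd_single]
        exact Submodule.sum_mem _ fun j _ => Submodule.smul_mem _ _
          (Finsupp.single_mem_supported ℚ c (show _ ∈ {g | _} from fun i => hgt _))
      rw [← cn_single, nrm_cn x h1, bd_cn, bd_cn, map_sub, ih', nrm_cn x h2]
    · have h0 : nrm (q + 2) (Finsupp.single (Fin.cons x f' : Fin (q + 2) → P) c) = 0 := by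
        rw [nrm_single, if_neg]
        rw [strictMono_cons_iff]
        exact fun h => (h.1 0).ne heq
      rw [h0, map_zero, ← cn_single, bd_cn, map_sub]
      obtain ⟨y, f'', rfl⟩ : ∃ y f'', f' = (Fin.cons y f'' : Fin (q + 1) → P) :=
        ⟨f' 0, Fin.tail f', (Fin.cons_self_tail f').symm⟩
      obtain rfl : x = y := by simpa using heq
      clear ih ih' h0 hx hm heq
      cases q with
      | zero => rw [← cn_single, bd_cn_zero, sub_self]
      | succ q =>
        rw [← cn_single, bd_cn, map_sub, map_sub, nrm_cn_cn, sub_zero, sub_self]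

theorem nrm_bd {S : Set P} {q : ℕ} {z : (Fin (q + 1) → P) →₀ ℚ} (hz : z ∈ MC S (q + 1)) :
    bd q (nrm (q + 1) z) = nrm q (bd q z) := by
  have h := eq_of_single (bd q ∘ₗ nrm (q + 1)) (nrm q ∘ₗ bd q)
    {f : Fin (q + 1) → P | Monotone f ∧ ∀ j, f j ∈ S} (fun f hf => by
      rw [LinearMap.comp_apply, LinearMap.comp_apply]
      exact nrm_bd_single q f 1 hf.1) hz
  rwa [LinearMap.comp_apply, LinearMap.comp_apply] at h

end Pool.Agent.LibST67
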