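import Pool.Agent.LibST67.T2

/-!
The prism operator of a map `r`, cones at the end, and the acyclicity of conically contractible sets.
-/

set_option autoImplicit false

namespace Pool.Agent.LibST67

variable {P : Type*}

/-- the prism operator on one tuple: `h(x f) = (r x, x, f) - r x h(f)` -/
noncomputable def hp (r : P → P) : (q : ℕ) → (Fin q → P) → ((Fin (q + 1) → P) →₀ ℚ)
  | 0, _ => 0
  | q + 1, f => Finsupp.single (Fin.cons (r (f 0)) f : Fin (q + 2) → P) 1 -
      cn (r (f 0)) (q + 1) (hp r q (Fin.tail f))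

/-- the prism operator -/
noncomputable def hpL (r : P → P) (q : ℕ) : ((Fin q → P) →₀ ℚ) →ₗ[ℚ] ((Fin (q + 1) → P) →₀ ℚ) :=
  Finsupp.linearCombination ℚ (hp r q)

/-- applying `r` to the entries -/
noncomputable def mp (r : P → P) (q : ℕ) : ((Fin q → P) →₀ ℚ) →ₗ[ℚ] ((Fin q → P) →₀ ℚ) :=
  Finsupp.lmapDomain ℚ ℚ (fun f : Fin q → P => r ∘ f)

theorem hpL_single (r : P → P) (q : ℕ) (f : Fin q → P) :
    hpL r q (Finsupp.single f 1) = hp r q f := by
  rw [hpL, Finsupp.linearCombination_single, one_smul]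

theorem mp_single (r : P → P) (q : ℕ) (f : Fin q → P) (c : ℚ) :
    mp r q (Finsupp.single f c) = Finsupp.single (r ∘ f) c := by
  simp [mp]

theorem hp_cons (r : P → P) (q : ℕ) (x : P) (f : Fin q → P) :
    hp r (q + 1) (Fin.cons x f : Fin (q + 1) → P) =
      cn (r x) (q + 1) (cn x q (Finsupp.single f 1)) - cn (r x) (q + 1) (hpL r q (Finsupp.single f 1)) := by
  rw [hp, cn_single, cn_single, hpL_single]
  rfl

theorem hpL_cn (r : P → P) (q : ℕ) (x : P) (z : (Fin q → P) →₀ ℚ) :
    hpL r (q + 1) (cn x q z) = cn (r x) (q + 1) (cn x q z) - cn (r x) (q + 1) (hpL r q z) := by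
  have h := eq_of_single (hpL r (q + 1) ∘ₗ cn x q)
    (cn (r x) (q + 1) ∘ₗ cn x q - cn (r x) (q + 1) ∘ₗ hpL r q) Set.univ (fun f _ => by
      simp only [LinearMap.comp_apply, LinearMap.sub_apply]
      rw [cn_single, hpL_single, hp_cons, cn_single]) (z := z) (by simp)
  simpa only [LinearMap.comp_apply, LinearMap.sub_apply] using h

theorem mp_cn (r : P → P) (q : ℕ) (x : P) (z : (Fin q → P) →₀ ℚ) :
    mp r (q + 1) (cn x q z) = cn (r x) q (mp r q z) := by
  have h := eq_of_single (mp r (q + 1) ∘ₗ cn x q) (cn (r x) q ∘ₗ mp r q) Set.univ (fun f _ => by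
      simp only [LinearMap.comp_apply]
      rw [cn_single, mp_single, mp_single, cn_single]
      congr 1
      funext i
      refine Fin.cases ?_ (fun i => ?_) i <;> simp) (z := z) (by simp)
  simpa only [LinearMap.comp_apply] using h

/-- the prism formula -/
theorem prism (r : P → P) (q : ℕ) (z : (Fin (q + 1) → P) →₀ ℚ) :
    bd (q + 1) (hpL r (q + 1) z) + hpL r q (bd q z) = z - mp r (q + 1) z := by
  have key : ∀ (q : ℕ) (f : Fin (q + 1) → P),
      bd (q + 1) (hpL r (q + 1) (Finsupp.single f 1)) + hpL r q (bd q (Finsupp.single f 1)) =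
        Finsupp.single f 1 - mp r (q + 1) (Finsupp.single f 1) := by
    intro q
    induction q with
    | zero =>
      intro f
      obtain ⟨x, f', rfl⟩ : ∃ x f', f = (Fin.cons x f' : Fin 1 → P) :=
        ⟨f 0, Fin.tail f, (Fin.cons_self_tail f).symm⟩
      rw [← cn_single, hpL_cn, map_sub, bd_cn, bd_cn_zero, bd_cn, hpL_single, mp_cn]
      have h0 : hp r 0 f' = 0 := rfl
      have h2 : mp r 0 (Finsupp.single f' 1) = Finsupp.single f' 1 := by
        rw [mp_single]
        congr 1
        exact Subsingleton.elim _ _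
      rw [h0, h2]
      simp
    | succ q ih =>
      intro f
      obtain ⟨x, f', rfl⟩ : ∃ x f', f = (Fin.cons x f' : Fin (q + 2) → P) :=
        ⟨f 0, Fin.tail f, (Fin.cons_self_tail f).symm⟩
      have h := ih f'
      rw [← cn_single, hpL_cn, mp_cn, map_sub, bd_cn, bd_cn, bd_cn]
      have h' : bd (q + 1) (hpL r (q + 1) (Finsupp.single f' 1)) =
          Finsupp.single f' 1 - mp r (q + 1) (Finsupp.single f' 1) -
            hpL r q (bd q (Finsupp.single f' 1)) := by rw [← h]; abel
      rw [h']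
      simp only [map_sub, hpL_cn]
      abel
  have h := eq_of_single (bd (q + 1) ∘ₗ hpL r (q + 1) + hpL r q ∘ₗ bd q)
    (LinearMap.id - mp r (q + 1)) Set.univ (fun f _ => by
      simpa only [LinearMap.comp_apply, LinearMap.add_apply, LinearMap.sub_apply,
        LinearMap.id_apply] using key q f) (z := z) (by simp)
  simpa only [LinearMap.comp_apply, LinearMap.add_apply, LinearMap.sub_apply,
        LinearMap.id_apply] using h

/-- writing `c` at the end of each tuple -/
noncomputable def sn (c : P) (q : ℕ) : ((Fin q → P) →₀ ℚ) →ₗ[ℚ] ((Fin (q + 1) → P) →₀ ℚ) :=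
  Finsupp.lmapDomain ℚ ℚ (fun f : Fin q → P => (Fin.snoc f c : Fin (q + 1) → P))

theorem sn_single (c : P) (q : ℕ) (f : Fin q → P) (a : ℚ) :
    sn c q (Finsupp.single f a) = Finsupp.single (Fin.snoc f c : Fin (q + 1) → P) a := by
  simp [sn]

theorem sn_cn (c x : P) (q : ℕ) (z : (Fin q → P) →₀ ℚ) :
    sn c (q + 1) (cn x q z) = cn x (q + 1) (sn c q z) := by
  have h := eq_of_single (sn c (q + 1) ∘ₗ cn x q) (cn x (q + 1) ∘ₗ sn c q) Set.univ (fun f _ => by
      simp only [LinearMap.comp_apply]
      rw [cn_single, sn_single, sn_single, cn_single]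
      congr 1
      exact (Fin.cons_snoc_eq_snoc_cons x f c).symm) (z := z) (by simp)
  simpa only [LinearMap.comp_apply] using h

theorem bd_sn (c : P) (q : ℕ) (z : (Fin (q + 1) → P) →₀ ℚ) :
    bd (q + 1) (sn c (q + 1) z) = sn c q (bd q z) + (-1 : ℚ) ^ (q + 1) • z := by
  have key : ∀ (q : ℕ) (f : Fin (q + 1) → P),
      bd (q + 1) (sn c (q + 1) (Finsupp.single f 1)) =
        sn c q (bd q (Finsupp.single f 1)) + (-1 : ℚ) ^ (q + 1) • Finsupp.single f 1 := by
    intro q
    induction q with
    | zero =>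
      intro f
      obtain ⟨x, f', rfl⟩ : ∃ x f', f = (Fin.cons x f' : Fin 1 → P) :=
        ⟨f 0, Fin.tail f, (Fin.cons_self_tail f).symm⟩
      rw [← cn_single, sn_cn, bd_cn, bd_cn_zero]
      have h2 : sn c 0 (Finsupp.single f' 1) = cn c 0 (Finsupp.single f' 1) := by
        rw [sn_single, cn_single]
        congr 1
        funext i
        rw [Subsingleton.elim (α := Fin 1) i 0]
        rfl
      rw [h2, bd_cn_zero]
      simp [sub_eq_add_neg]
    | succ q ih =>
      intro f
      obtain ⟨x, f', rfl⟩ : ∃ x f', f = (Fin.cons x f' : Fin (q + 2) → P) :=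
        ⟨f 0, Fin.tail f, (Fin.cons_self_tail f).symm⟩
      have h := ih f'
      rw [← cn_single, sn_cn, bd_cn, h, bd_cn, map_sub, sn_cn, map_add, map_smul, pow_succ (-1 : ℚ) (q + 1)]
      simp only [mul_neg, mul_one, neg_smul]
      abel
  have h := eq_of_single (bd (q + 1) ∘ₗ sn c (q + 1)) (sn c q ∘ₗ bd q + (-1 : ℚ) ^ (q + 1) • LinearMap.id)
    Set.univ (fun f _ => by
      simpa only [LinearMap.comp_apply, LinearMap.add_apply, LinearMap.smul_apply,
        LinearMap.id_apply] using key q f) (z := z) (by simp)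
  simpa only [LinearMap.comp_apply, LinearMap.add_apply, LinearMap.smul_apply,
        LinearMap.id_apply] using h

theorem bd_mp (r : P → P) (q : ℕ) (z : (Fin (q + 1) → P) →₀ ℚ) :
    bd q (mp r (q + 1) z) = mp r q (bd q z) := by
  have h := eq_of_single (bd q ∘ₗ mp r (q + 1)) (mp r q ∘ₗ bd q) Set.univ (fun f _ => by
      simp only [LinearMap.comp_apply]
      rw [mp_single, bd_single, bd_single, map_sum]
      refine Finset.sum_congr rfl fun j _ => ?_
      rw [map_smul, mp_single]
      rfl) (z := z) (by simp)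
  simpa only [LinearMap.comp_apply] using h

end Pool.Agent.LibST67
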