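import Pool.Agent.LibST67.T3

/-!
Conically contractible sets are acyclic.
-/

set_option autoImplicit false

namespace Pool.Agent.LibST67

variable {P : Type*} [PartialOrder P]

theorem cn_mem_MC {T S : Set P} {q : ℕ} {x : P} (hx : x ∈ S) (hT : ∀ y ∈ T, x ≤ y ∧ y ∈ S)
    {z : (Fin q → P) →₀ ℚ} (hz : z ∈ MC T q) : cn x q z ∈ MC S (q + 1) := by
  refine map_mem_of_single _ _ _ (fun f hf => ?_) hz
  rw [cn_single]
  refine single_mem_MC ((monotone_cons_iff x f).2 ⟨fun j => (hT _ (hf.2 j)).1, hf.1⟩) ?_ _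
  intro j
  refine Fin.cases ?_ (fun j => ?_) j
  · simpa using hx
  · simpa using (hT _ (hf.2 j)).2

theorem sn_mem_MC {T S : Set P} {q : ℕ} {x : P} (hx : x ∈ S) (hT : ∀ y ∈ T, y ≤ x ∧ y ∈ S)
    {z : (Fin q → P) →₀ ℚ} (hz : z ∈ MC T q) : sn x q z ∈ MC S (q + 1) := by
  refine map_mem_of_single _ _ _ (fun f hf => ?_) hz
  rw [sn_single]
  refine single_mem_MC ?_ ?_ _
  · intro i j
    refine Fin.lastCases ?_ (fun i => ?_) i <;> refine Fin.lastCases ?_ (fun j => ?_) j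
    · intro _; exact le_rfl
    · intro h; exact absurd h (not_le_of_gt (Fin.castSucc_lt_last j))
    · intro _; simpa using (hT _ (hf.2 i)).1
    · intro h; simpa using hf.1 (Fin.castSucc_le_castSucc_iff.1 h)
  · intro j
    refine Fin.lastCases ?_ (fun j => ?_) j
    · simpa using hx
    · simpa using (hT _ (hf.2 j)).2

theorem hp_mem {Y : Set P} {r : P → P} (h1 : ∀ x ∈ Y, r x ∈ Y)
    (h2 : ∀ x ∈ Y, ∀ y ∈ Y, x ≤ y → r x ≤ r y) (h3 : ∀ x ∈ Y, r x ≤ x) (q : ℕ) :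
    ∀ (f : Fin q → P), Monotone f → (∀ j, f j ∈ Y) → ∀ b : P, (∀ j, b ≤ r (f j)) →
      hp r q f ∈ MC (Y ∩ Set.Ici b) (q + 1) := by
  induction q with
  | zero => intro f _ _ b _; exact Submodule.zero_mem _
  | succ q ih =>
    intro f
    obtain ⟨x, f', rfl⟩ : ∃ x f', f = (Fin.cons x f' : Fin (q + 1) → P) :=
      ⟨f 0, Fin.tail f, (Fin.cons_self_tail f).symm⟩
    intro hm hY b hb
    rw [monotone_cons_iff] at hm
    have hx : x ∈ Y := by simpa using hY 0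
    have hf' : ∀ j, f' j ∈ Y := fun j => by simpa using hY (Fin.succ j)
    have hbx : b ≤ r x := by simpa using hb 0
    rw [hp_cons]
    refine Submodule.sub_mem _ ?_ ?_
    · have hz : Finsupp.single f' (1 : ℚ) ∈ MC (Y ∩ Set.Ici x) q :=
        single_mem_MC hm.2 (fun j => And.intro (hf' j) (hm.1 j)) _
      have h4 : cn x q (Finsupp.single f' (1 : ℚ)) ∈ MC (Y ∩ Set.Ici x) (q + 1) :=
        cn_mem_MC (T := (Y ∩ Set.Ici x)) (And.intro hx le_rfl) (fun y hy => And.intro hy.2 hy) hz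
      exact cn_mem_MC (T := (Y ∩ Set.Ici x)) (And.intro (h1 x hx) hbx)
        (fun y hy => And.intro ((h3 x hx).trans hy.2)
          (And.intro hy.1 (hbx.trans ((h3 x hx).trans hy.2)))) h4
    · rw [hpL_single]
      have h5 := ih f' hm.2 hf' (r x) (fun j => h2 x hx _ (hf' j) (hm.1 j))
      exact cn_mem_MC (T := (Y ∩ Set.Ici (r x))) (And.intro (h1 x hx) hbx)
        (fun y hy => And.intro hy.2 (And.intro hy.1 (hbx.trans hy.2))) h5

theorem mp_mem {Y T : Set P} {r : P → P} (h1 : ∀ x ∈ Y, r x ∈ T)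
    (h2 : ∀ x ∈ Y, ∀ y ∈ Y, x ≤ y → r x ≤ r y) {q : ℕ} {z : (Fin q → P) →₀ ℚ} (hz : z ∈ MC Y q) :
    mp r q z ∈ MC T q := by
  refine map_mem_of_single _ _ _ (fun f hf => ?_) hz
  rw [mp_single]
  exact single_mem_MC (fun i j hij => h2 _ (hf.2 i) _ (hf.2 j) (hf.1 hij))
    (fun j => h1 _ (hf.2 j)) _

theorem hpL_mem {Y : Set P} {r : P → P} (h1 : ∀ x ∈ Y, r x ∈ Y)
    (h2 : ∀ x ∈ Y, ∀ y ∈ Y, x ≤ y → r x ≤ r y) (h3 : ∀ x ∈ Y, r x ≤ x) {q : ℕ}
    {z : (Fin q → P) →₀ ℚ} (hz : z ∈ MC Y q) : hpL r q z ∈ MC Y (q + 1) := by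
  cases q with
  | zero =>
    have : hpL r 0 z = 0 := by
      have h := eq_of_single (hpL r 0) 0 Set.univ (fun f _ => by rw [hpL_single]; rfl) (z := z)
        (by simp)
      simpa using h
    rw [this]
    exact Submodule.zero_mem _
  | succ q =>
    refine map_mem_of_single _ _ _ (fun f hf => ?_) hz
    rw [hpL_single, hp]
    have h0 : ∀ j, r (f 0) ≤ r (f j) := fun j =>
      h2 _ (hf.2 0) _ (hf.2 j) (hf.1 (Fin.zero_le j))
    have h := hp_mem h1 h2 h3 (q + 1) f hf.1 hf.2 (r (f 0)) h0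
    rw [hp] at h
    exact MC_mono (fun y hy => hy.1) _ h

/-- conically contractible sets are acyclic -/
theorem acy_conical {Y : Set P} (r : P → P) (c : P) (hc : c ∈ Y) (h1 : ∀ x ∈ Y, r x ∈ Y)
    (h2 : ∀ x ∈ Y, ∀ y ∈ Y, x ≤ y → r x ≤ r y) (h3 : ∀ x ∈ Y, r x ≤ x) (h4 : ∀ x ∈ Y, r x ≤ c)
    (d : ℕ) : Acy Y d := by
  refine ⟨fun _ => ⟨c, hc⟩, fun q _ z hz hb => ?_⟩
  have hz' : z ∈ MC Y (q + 1) := SC_le_MC _ _ hz
  have hmp : mp r (q + 1) z ∈ MC (Y ∩ Set.Iic c) (q + 1) :=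
    mp_mem (Y := Y) (T := Y ∩ Set.Iic c) (fun x hx => And.intro (h1 x hx) (h4 x hx)) h2 hz'
  have e1 := prism r q z
  have e2 := bd_sn c q (mp r (q + 1) z)
  rw [hb, map_zero, add_zero] at e1
  rw [bd_mp, hb, map_zero, map_zero, zero_add] at e2
  set w := hpL r (q + 1) z + (-1 : ℚ) ^ (q + 1) • sn c (q + 1) (mp r (q + 1) z) with hw
  have hwm : w ∈ MC Y (q + 2) := by
    refine Submodule.add_mem _ (hpL_mem h1 h2 h3 hz') (Submodule.smul_mem _ _ ?_)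
    exact sn_mem_MC (T := (Y ∩ Set.Iic c)) hc (fun y hy => ⟨hy.2, hy.1⟩) hmp
  have hbw : bd (q + 1) w = z := by
    rw [hw, map_add, e1, map_smul, e2, smul_smul, ← mul_pow]
    simp
  refine ⟨nrm (q + 2) w, nrm_mem hwm, ?_⟩
  rw [nrm_bd hwm, hbw, nrm_eq hz]

end Pool.Agent.LibST67
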