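import Pool.Agent.LibST67.T4

/-!
Adding minimal elements.
-/

set_option autoImplicit false

namespace Pool.Agent.LibST67

variable {P : Type*} [PartialOrder P]

theorem cn_mem_SC {T S : Set P} {q : ℕ} {x : P} (hx : x ∈ S) (hT : ∀ y ∈ T, x < y ∧ y ∈ S)
    {z : (Fin q → P) →₀ ℚ} (hz : z ∈ SC T q) : cn x q z ∈ SC S (q + 1) := by
  refine map_mem_of_single _ _ _ (fun f hf => ?_) hz
  rw [cn_single]
  refine single_mem_SC ((strictMono_cons_iff x f).2 ⟨fun j => (hT _ (hf.2 j)).1, hf.1⟩) ?_ _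
  intro j
  refine Fin.cases ?_ (fun j => ?_) j
  · simpa using hx
  · simpa using (hT _ (hf.2 j)).2

omit [PartialOrder P] in
open Classical in
theorem pr_single (x : P) (q : ℕ) (y : P) (f : Fin q → P) :
    pr x q (Finsupp.single (Fin.cons y f : Fin (q + 1) → P) 1) =
      if x = y then Finsupp.single f 1 else 0 := by
  rw [← cn_single]
  split_ifs with h
  · rw [h, pr_cn]
  · exact pr_cn_ne h _ _

theorem pr_mem {S : Set P} {q : ℕ} (a : P) {z : (Fin (q + 1) → P) →₀ ℚ} (hz : z ∈ SC S (q + 1)) :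
    pr a q z ∈ SC (S ∩ Set.Ioi a) q := by
  classical
  refine map_mem_of_single _ _ _ (fun f hf => ?_) hz
  obtain ⟨x, f', rfl⟩ : ∃ x f', f = (Fin.cons x f' : Fin (q + 1) → P) :=
    ⟨f 0, Fin.tail f, (Fin.cons_self_tail f).symm⟩
  rw [pr_single]
  split_ifs with h
  · subst h
    have h1 := (strictMono_cons_iff a f').1 hf.1
    exact single_mem_SC h1.2 (fun j => And.intro (by simpa using hf.2 (Fin.succ j)) (h1.1 j)) _
  · exact Submodule.zero_mem _

/-- on strict chains of a set in which nothing lies below `a`: `pr a` anticommutes with the boundary -/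
theorem pr_bd {S : Set P} {q : ℕ} (a : P) (ha : ∀ x ∈ S, ¬ x < a)
    {z : (Fin (q + 2) → P) →₀ ℚ} (hz : z ∈ SC S (q + 2)) :
    pr a q (bd (q + 1) z) = - bd q (pr a (q + 1) z) := by
  classical
  have h := eq_of_single (pr a q ∘ₗ bd (q + 1)) (- (bd q ∘ₗ pr a (q + 1)))
    {f : Fin (q + 2) → P | StrictMono f ∧ ∀ j, f j ∈ S} (fun f hf => by
      obtain ⟨x, f', rfl⟩ : ∃ x f', f = (Fin.cons x f' : Fin (q + 2) → P) :=
        ⟨f 0, Fin.tail f, (Fin.cons_self_tail f).symm⟩
      obtain ⟨y, f'', rfl⟩ : ∃ x f'', f' = (Fin.cons x f'' : Fin (q + 1) → P) :=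
        ⟨f' 0, Fin.tail f', (Fin.cons_self_tail f').symm⟩
      have hxy : x < y := by simpa using ((strictMono_cons_iff x _).1 hf.1).1 0
      have hx : x ∈ S := by simpa using hf.2 0
      have hay : a ≠ y := fun h => ha x hx (h ▸ hxy)
      rw [LinearMap.comp_apply, LinearMap.neg_apply, LinearMap.comp_apply, ← cn_single, bd_cn,
        map_sub]
      have e1 : pr a q (Finsupp.single (Fin.cons y f'' : Fin (q + 1) → P) 1) = 0 := by
        rw [pr_single, if_neg hay]
      rw [e1, zero_sub]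
      by_cases hax : a = x
      · rw [hax, pr_cn, pr_cn]
      · rw [pr_cn_ne hax, pr_cn_ne hax, map_zero]) hz
  simpa only [LinearMap.comp_apply, LinearMap.neg_apply] using h

/-- **Adding minimal elements.** -/
theorem acy_glue {S A : Set P} (d : ℕ) (hA : A ⊆ S) (hmin : ∀ a ∈ A, ∀ x ∈ S, ¬ x < a)
    (hlink : ∀ a ∈ A, Acy (S ∩ Set.Ioi a) (d - 1)) (hrest : Acy (S \ A) d) : Acy S d := by
  classical
  refine ⟨fun hd => (hrest.1 hd).mono Set.sdiff_subset, fun q hq z hz hb => ?_⟩
  -- fillings of the links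
  have key : ∀ a ∈ A, ∃ u ∈ SC (S ∩ Set.Ioi a) (q + 1), bd q u = pr a q z := by
    intro a ha
    have hm := pr_mem a hz
    cases q with
    | zero =>
      obtain ⟨x, hx⟩ := (hlink a ha).1 (by omega)
      refine ⟨cn x 0 (pr a 0 z), ?_, bd_cn_zero _ _⟩
      have : pr a 0 z ∈ SC (∅ : Set P) 0 := by
        rw [SC, Finsupp.mem_supported]
        exact fun f _ => And.intro (fun i => Fin.elim0 i) (fun i => Fin.elim0 i)
      exact cn_mem_SC (T := ∅) hx (fun y hy => absurd hy (Set.notMem_empty _)) this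
    | succ q =>
      refine (hlink a ha).2 q (by omega) _ hm ?_
      have := pr_bd a (hmin a ha) hz
      rw [hb, map_zero] at this
      exact neg_eq_zero.1 this.symm
  choose! u hu hbu using key
  -- the minimal elements that occur
  set F : Finset P := (z.support.image (fun f => f 0)).filter (· ∈ A) with hF
  set W := ∑ a ∈ F, cn a (q + 1) (u a) with hW
  have hWm : W ∈ SC S (q + 2) := Submodule.sum_mem _ fun a ha => by
    have haA : a ∈ A := (Finset.mem_filter.1 ha).2
    exact cn_mem_SC (T := S ∩ Set.Ioi a) (hA haA) (fun y hy => And.intro hy.2 hy.1) (hu a haA)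
  have hbW : bd (q + 1) W = ∑ a ∈ F, (u a - cn a q (pr a q z)) := by
    rw [hW, map_sum]
    refine Finset.sum_congr rfl fun a ha => ?_
    have haA : a ∈ A := (Finset.mem_filter.1 ha).2
    rw [bd_cn, hbu a haA]
  -- the rest has entries outside `A`
  have hsub : ∀ a ∈ A, ∀ x ∈ S, a < x → x ∉ A := fun a ha x hx hax hxA => hmin x hxA a (hA ha) hax
  have hrm : z - ∑ a ∈ F, cn a q (pr a q z) ∈ SC (S \ A) (q + 1) := by
    rw [SC, Finsupp.mem_supported]
    intro f hf
    have hf' : (z - ∑ a ∈ F, cn a q (pr a q z)) f ≠ 0 := Finsupp.mem_support_iff.1 hf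
    obtain ⟨x, g, rfl⟩ : ∃ x g, f = (Fin.cons x g : Fin (q + 1) → P) :=
      ⟨f 0, Fin.tail f, (Fin.cons_self_tail f).symm⟩
    rw [Finsupp.sub_apply, ← pr_apply x q, ← pr_apply x q, map_sum, Finset.sum_apply'] at hf'
    have h1 : ∀ a ∈ F, a ≠ x → pr x q (cn a q (pr a q z)) g = 0 := fun a _ ha => by
      rw [pr_cn_ne (Ne.symm ha)]; rfl
    by_cases hxF : x ∈ F
    · rw [Finset.sum_eq_single_of_mem x hxF h1, pr_cn] at hf'
      exact absurd (sub_self _) hf'
    · rw [Finset.sum_eq_zero (fun a ha => h1 a ha (fun h => hxF (h ▸ ha))), sub_zero, pr_apply] at hf'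
      have hmem := (Finsupp.mem_supported _ _).1 hz (Finsupp.mem_support_iff.2 hf')
      have hxA : x ∉ A := fun h => hxF (Finset.mem_filter.2
        ⟨Finset.mem_image.2 ⟨_, Finsupp.mem_support_iff.2 hf', by simp⟩, h⟩)
      refine And.intro hmem.1 fun j => And.intro (hmem.2 j) ?_
      have hsm := (strictMono_cons_iff x g).1 hmem.1
      have hx : x ∈ S := by simpa using hmem.2 0
      refine Fin.cases ?_ (fun j => ?_) j
      · simpa using hxA
      · intro h
        exact hmin _ (by simpa using h) x hx (hsm.1 j)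
  have hum : ∑ a ∈ F, u a ∈ SC (S \ A) (q + 1) := Submodule.sum_mem _ fun a ha => by
    have haA : a ∈ A := (Finset.mem_filter.1 ha).2
    exact SC_mono (fun y hy => And.intro hy.1 (hsub a haA y hy.1 hy.2)) _ (hu a haA)
  have hz' : z + bd (q + 1) W ∈ SC (S \ A) (q + 1) := by
    have : z + bd (q + 1) W = (z - ∑ a ∈ F, cn a q (pr a q z)) + ∑ a ∈ F, u a := by
      rw [hbW, Finset.sum_sub_distrib]; abel
    rw [this]
    exact Submodule.add_mem _ hrm hum
  obtain ⟨w, hw, hbw⟩ := hrest.2 q hq _ hz' (by rw [map_add, hb, bd_bd, add_zero])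
  refine ⟨w - W, Submodule.sub_mem _ (SC_mono Set.sdiff_subset _ hw) hWm, ?_⟩
  rw [map_sub, hbw, add_sub_cancel_right]

end Pool.Agent.LibST67
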