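import Pool.Agent.LibST67.T5

/-!
**Solomon-Tits**: the order complex of the proper nonzero subspaces of a vector space of dimension
`n` is acyclic below the chains with `n - 1` vertices.
-/

set_option autoImplicit false

namespace Pool.Agent.LibST67

variable {K V : Type*} [Field K] [AddCommGroup V] [Module K V] [FiniteDimensional K V]

omit [FiniteDimensional K V] in
theorem finrank_quot_coatom {H : Submodule K V} (hH : IsCoatom H) :
    Module.finrank K (V ⧸ H) = 1 := by
  have : IsSimpleModule K (V ⧸ H) := isSimpleModule_iff_isCoatom.2 hH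
  exact isSimpleModule_iff_finrank_eq_one.1 this

theorem acy_interval (n : ℕ) : ∀ L : Submodule K V, Module.finrank K (V ⧸ L) = n →
    Acy {x : Submodule K V | L < x ∧ x < ⊤} (n - 1) := by
  have h0 : ∀ S : Set (Submodule K V), Acy S 0 := fun S =>
    ⟨fun h => absurd h (lt_irrefl _), fun q h => absurd h (Nat.not_lt_zero _)⟩
  match n with
  | 0 => exact fun L _ => h0 _
  | 1 => exact fun L _ => h0 _
  | n + 2 =>
    intro L hL
    have ih := acy_interval (n + 1)
    have hLtop : L ≠ ⊤ := by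
      rintro rfl
      have := Submodule.finrank_quotient_add_finrank (⊤ : Submodule K V)
      rw [finrank_top] at this
      omega
    obtain ⟨H, hH, hLH⟩ := (eq_top_or_exists_le_coatom L).resolve_left hLtop
    have hH1 := finrank_quot_coatom hH
    have dL := Submodule.finrank_quotient_add_finrank L
    have dH := Submodule.finrank_quotient_add_finrank H
    have hLH' : L < H := by
      refine lt_of_le_of_ne hLH ?_
      rintro rfl
      omega
    have hsup : ∀ x : Submodule K V, L < x → x ⊓ H = L → x ⊔ H = ⊤ := by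
      intro x hx hxL
      by_contra hne
      have h1 : H = x ⊔ H := by
        by_contra hne'
        exact hne (hH.2 _ (lt_of_le_of_ne le_sup_right hne'))
      have h2 : x ≤ H := h1 ▸ le_sup_left
      rw [inf_eq_left.2 h2] at hxL
      exact hx.ne hxL.symm
    refine acy_glue (A := {x | (L < x ∧ x < ⊤) ∧ x ⊓ H = L}) _ (fun x hx => hx.1) ?_ ?_ ?_
    · rintro a ⟨⟨ha1, ha2⟩, ha3⟩ x ⟨hx1, hx2⟩ hxa
      have hx3 : x ⊓ H = L :=
        le_antisymm (ha3 ▸ inf_le_inf_right _ hxa.le) (le_inf hx1.le hLH)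
      refine hxa.ne (eq_of_le_of_inf_le_of_sup_le hxa.le ?_ ?_ (z := H))
      · rw [ha3, hx3]
      · rw [hsup x hx1 hx3]; exact le_top
    · rintro a ⟨⟨ha1, ha2⟩, ha3⟩
      have hset : ({x : Submodule K V | L < x ∧ x < ⊤} ∩ Set.Ioi a) = {x | a < x ∧ x < ⊤} := by
        ext x
        constructor
        · rintro ⟨⟨h1, h2⟩, h3⟩
          exact ⟨h3, h2⟩
        · rintro ⟨h1, h2⟩
          exact ⟨⟨ha1.trans h1, h2⟩, h1⟩
      rw [hset]
      refine ih a ?_
      have e := Submodule.finrank_sup_add_finrank_inf_eq a H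
      rw [hsup a ha1 ha3, ha3, finrank_top] at e
      have da := Submodule.finrank_quotient_add_finrank a
      omega
    · refine acy_conical (fun x => x ⊓ H) H ?_ ?_ ?_ ?_ ?_ _
      · refine ⟨⟨hLH', hH.lt_top⟩, fun h => hLH'.ne ?_⟩
        rw [← h.2, inf_idem]
      · rintro x ⟨⟨h1, h2⟩, h3⟩
        have h4 : L < x ⊓ H := by
          refine lt_of_le_of_ne (le_inf h1.le hLH) fun h => h3 ⟨⟨h1, h2⟩, h.symm⟩
        refine ⟨⟨h4, inf_le_left.trans_lt h2⟩, fun h => h4.ne ?_⟩
        rw [← h.2, inf_assoc, inf_idem]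
      · intro x _ y _ hxy
        exact inf_le_inf_right _ hxy
      · intro x _
        exact inf_le_left
      · intro x _
        exact inf_le_right

/-- **Solomon-Tits** -/
theorem solomon_tits (n : ℕ) (h : Module.finrank K V = n) :
    Acy {x : Submodule K V | x ≠ ⊥ ∧ x ≠ ⊤} (n - 1) := by
  have h1 := acy_interval (K := K) (V := V) n ⊥ (by
    rw [← h]
    exact (Submodule.quotEquivOfEqBot ⊥ rfl).finrank_eq)
  have : {x : Submodule K V | x ≠ ⊥ ∧ x ≠ ⊤} = {x : Submodule K V | ⊥ < x ∧ x < ⊤} := by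
    ext x
    simp only [Set.mem_ofPred_eq, bot_lt_iff_ne_bot, lt_top_iff_ne_top]
  rw [this]
  exact h1

/-- Solomon-Tits, written out -/
theorem solomon_tits_fin (m : ℕ) (q : ℕ) (hq : q < m)
    (z : (Fin (q + 1) → Submodule ℝ (Fin (m + 2) → ℝ)) →₀ ℚ)
    (hz : z ∈ SC {x : Submodule ℝ (Fin (m + 2) → ℝ) | x ≠ ⊥ ∧ x ≠ ⊤} (q + 1)) (hb : bd q z = 0) :
    ∃ w ∈ SC {x : Submodule ℝ (Fin (m + 2) → ℝ) | x ≠ ⊥ ∧ x ≠ ⊤} (q + 2), bd (q + 1) w = z :=
  (solomon_tits (K := ℝ) (V := Fin (m + 2) → ℝ) (m + 2) (by simp)).2 q (by omega) z hz hb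

end Pool.Agent.LibST67
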